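import Pool.Agent.H7.Crem.Geo

/-!
# The universal functions exist
-/

set_option autoImplicit false

open Complex Metric Set Filter Topology
open Pool.Agent.H44.Crem (WRof IsUFun)

namespace Pool.Agent.H7.Crem

variable {E : ℂ → ℂ}

theorem E_S' (hE : EFun E) {u : ℂ} (hu : u ∈ ball (0 : ℂ) (rsOf E)) :
    E (SS hE u) = - II hE u := by
  have h1 : ∀ v ∈ ball (0 : ℂ) (rsOf E), HasDerivAt (fun v => E (SS hE v) + II hE v) 0 v := by
    intro v hv
    have h2 := (HasDerivAt.comp v (hE.der (SS hE v)) (SS_der hE hv)).add (II_der hE hv)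
    have h3 : -phi (-(SS hE v)) * exp (II hE v + SS hE v) + FF v (II hE v) = 0 := by
      rw [phi_neg, exp_add]
      have h4 : exp (-(SS hE v)) * exp (SS hE v) = 1 := by rw [← exp_add]; simp
      have h5 : FF v (II hE v) = exp (II hE v) * phi (SS hE v) := rfl
      rw [h5]
      linear_combination (-(phi (SS hE v) * exp (II hE v))) * h4
    rw [h3] at h2
    exact h2
  have h3 := isOpen_ball.is_const_of_deriv_eq_zero (s := ball (0 : ℂ) (rsOf E))
    (convex_ball _ _).isPreconnected
    (f := fun v => E (SS hE v) + II hE v)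
    (fun y hy => (h1 y hy).differentiableAt.differentiableWithinAt)
    (fun y hy => (h1 y hy).deriv) hu (mem_ball_self hE.rs_pos)
  simp only [SS_zero, hE.zero, (II_good hE).zero, add_zero] at h3
  exact eq_neg_of_add_eq_zero_left h3

theorem SS_ofReal (hE : EFun E) {x : ℝ} (hx : |x| < rsOf E) :
    SS hE x = ((x * Real.exp (II hE x).re : ℝ) : ℂ) := by
  have h1 : II hE x = (((II hE x).re : ℝ) : ℂ) := by
    apply Complex.ext
    · simp
    · simp [II_im_real hE hx]
  unfold SS
  conv_lhs => rw [h1]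
  push_cast
  rfl

theorem S_WR' (hE : EFun E) {x : ℝ} (hx : 0 ≤ x) : SS hE (WRof E x : ℂ) = x := by
  have hW0 := hE.W_nonneg hx
  have hW : |WRof E x| < rsOf E := by
    rw [abs_of_nonneg hW0]
    exact hE.W_lt hx
  have hWb : ((WRof E x : ℝ) : ℂ) ∈ ball (0 : ℂ) (rsOf E) := by simpa using hW
  have h1 := SS_ofReal hE hW
  rw [h1]
  have h2 : WRof E (WRof E x * Real.exp (II hE (WRof E x : ℂ)).re) = WRof E x := by
    have h3 := E_S' hE hWb
    rw [h1] at h3
    have h4 : (E ((WRof E x * Real.exp (II hE (WRof E x : ℂ)).re : ℝ) : ℂ)).re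
        = -(II hE (WRof E x : ℂ)).re := by rw [h3, neg_re]
    conv_lhs => unfold WRof
    change (WRof E x * Real.exp (II hE (WRof E x : ℂ)).re) *
      Real.exp (E ((WRof E x * Real.exp (II hE (WRof E x : ℂ)).re : ℝ) : ℂ)).re = _
    rw [h4, mul_assoc, ← Real.exp_add]
    simp
  rw [hE.W_strictMono.injective h2]

theorem ufun (hE : EFun E) : IsUFun E (II hE) (rsOf E) where
  E_diff := fun s => (hE.der s).differentiableAt
  E_zero := hE.zero
  E_deriv := by
    intro s
    rw [(hE.der s).deriv]
    have := phi_mul (-s)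
    linear_combination this
  E_real := hE.real
  E_anti := hE.anti
  E_tendsto := hE.tendsto
  rs_pos := hE.rs_pos
  WR_mono := hE.W_strictMono.strictMonoOn _
  WR_cont := hE.W_cont
  WR_lt := fun x hx => hE.W_lt hx
  WR_surj := fun y hy hy2 => hE.W_surj hy hy2
  I_diff := (II_good hE).diff
  I_zero := (II_good hE).zero
  I_real := by
    intro x hx
    apply Complex.ext
    · simp
    · simp [II_im_real hE hx]
  E_S := fun u hu => E_S' hE hu
  S_WR := fun x hx => S_WR' hE hx
  S_le := by
    intro x hx u hu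
    have hW := hE.W_nonneg hx
    have h1 := (II_good hE).bound' hE hx hu
    rw [norm_mul, norm_exp]
    calc ‖u‖ * Real.exp (II hE u).re ≤ WRof E x * Real.exp (-(E x).re) := by
          apply mul_le_mul hu _ (Real.exp_pos _).le hW
          exact Real.exp_le_exp.mpr ((re_le_norm _).trans h1)
      _ = x := by
          unfold WRof
          rw [mul_assoc, ← Real.exp_add]
          simp
  S_mono := fun ω hω => S_mono' hE hω
  S_arg := fun u hu hs => S_arg' hE hu hs
  S_bdd := fun θ hθ u hu hu2 => S_bdd' hE hθ hu hu2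

theorem exists_ufun' : ∃ (E I : ℂ → ℂ) (rs : ℝ), IsUFun E I rs := by
  obtain ⟨E, h0, h1⟩ := exists_E
  exact ⟨E, _, _, ufun ⟨h0, h1⟩⟩

end Pool.Agent.H7.Crem
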