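import Pool.Agent.H7.Crem.Limit

/-!
# Geometric properties of `S u = u e^{I u}`
-/

set_option autoImplicit false

open Complex Metric Set Filter Topology
open Pool.Agent.H44.Crem (WRof)

namespace Pool.Agent.H7.Crem

variable {E : ℂ → ℂ}

/-- the inverse of `W` -/
noncomputable def SS (hE : EFun E) (u : ℂ) : ℂ := u * exp (II hE u)

theorem mul_FF (hE : EFun E) (u : ℂ) : u * FF u (II hE u) = exp (SS hE u) - 1 :=
  FF_mul u _

theorem SS_der (hE : EFun E) {u : ℂ} (hu : u ∈ ball (0 : ℂ) (rsOf E)) :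
    HasDerivAt (SS hE) (exp (II hE u + SS hE u)) u := by
  have h1 := (hasDerivAt_id u).mul (II_der hE hu).cexp
  have h2 : (1 * exp (II hE u) + id u * (exp (II hE u) * FF u (II hE u)))
      = exp (II hE u + SS hE u) := by
    have h3 := mul_FF hE u
    rw [exp_add]
    simp only [id]
    linear_combination (exp (II hE u)) * h3
  rw [h2] at h1
  exact h1

theorem SS_cont (hE : EFun E) {u : ℂ} (hu : u ∈ ball (0 : ℂ) (rsOf E)) :
    ContinuousAt (SS hE) u := (SS_der hE hu).continuousAt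

theorem SS_zero (hE : EFun E) : SS hE 0 = 0 := by simp [SS]

/-- the circle through `u` -/
noncomputable def cc (u : ℂ) (σ τ : ℝ) : ℂ := u * exp (((σ * τ : ℝ) : ℂ) * I)

theorem cc_norm (u : ℂ) (σ τ : ℝ) : ‖cc u σ τ‖ = ‖u‖ := by
  unfold cc
  rw [norm_mul, norm_exp_ofReal_mul_I, mul_one]

theorem cc_mem {u : ℂ} {R : ℝ} (hu : u ∈ ball (0 : ℂ) R) (σ τ : ℝ) :
    cc u σ τ ∈ ball (0 : ℂ) R := by
  rw [mem_ball_zero_iff] at *
  rwa [cc_norm]

theorem cc_zero (u : ℂ) (σ : ℝ) : cc u σ 0 = u := by simp [cc]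

theorem cc_der (u : ℂ) (σ τ : ℝ) :
    HasDerivAt (fun τ : ℝ => cc u σ τ) (σ * I * cc u σ τ) τ := by
  have h1 : HasDerivAt (fun τ : ℝ => ((σ * τ : ℝ) : ℂ) * I) (σ * I) τ := by
    have := (((hasDerivAt_id τ).const_mul σ).ofReal_comp).mul_const I
    simpa using this
  have h2 := (h1.cexp).const_mul u
  have h3 : u * (exp (((σ * τ : ℝ) : ℂ) * I) * (σ * I)) = σ * I * cc u σ τ := by
    unfold cc
    ring
  rw [h3] at h2
  exact h2

theorem cc_mul_exp (r σ τ : ℝ) (w : ℂ) : cc r σ τ * exp w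
    = ((r * Real.exp w.re : ℝ) : ℂ) * exp (((σ * τ + w.im : ℝ) : ℂ) * I) := by
  have h2 : exp w = ((Real.exp w.re : ℝ) : ℂ) * exp (((w.im : ℝ) : ℂ) * I) := by
    conv_lhs => rw [← re_add_im w]
    rw [exp_add, ofReal_exp]
  rw [h2]
  unfold cc
  rw [ofReal_add, add_mul, exp_add]
  push_cast
  ring

theorem mul_sin_of {σ : ℝ} (hσ : σ = 1 ∨ σ = -1) (x : ℝ) : σ * Real.sin x = Real.sin (σ * x) := by
  rcases hσ with rfl | rfl
  · simp
  · rw [neg_one_mul, neg_one_mul, Real.sin_neg]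

theorem II_cc_der (hE : EFun E) {u : ℂ} (hu : u ∈ ball (0 : ℂ) (rsOf E)) (σ τ : ℝ) :
    HasDerivAt (fun τ : ℝ => II hE (cc u σ τ)) (σ * I * (exp (SS hE (cc u σ τ)) - 1)) τ := by
  have h1 := HasDerivAt.comp τ (II_der hE (cc_mem hu σ τ)) (cc_der u σ τ)
  have h2 : FF (cc u σ τ) (II hE (cc u σ τ)) * (σ * I * cc u σ τ)
      = σ * I * (exp (SS hE (cc u σ τ)) - 1) := by
    rw [← mul_FF]
    ring
  rw [h2] at h1
  exact h1

theorem SS_cc_der (hE : EFun E) {u : ℂ} (hu : u ∈ ball (0 : ℂ) (rsOf E)) (σ τ : ℝ) :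
    HasDerivAt (fun τ : ℝ => SS hE (cc u σ τ))
      (σ * I * (SS hE (cc u σ τ) * exp (SS hE (cc u σ τ)))) τ := by
  have h1 := HasDerivAt.comp τ (SS_der hE (cc_mem hu σ τ)) (cc_der u σ τ)
  have h2 : exp (II hE (cc u σ τ) + SS hE (cc u σ τ)) * (σ * I * cc u σ τ)
      = σ * I * (SS hE (cc u σ τ) * exp (SS hE (cc u σ τ))) := by
    rw [exp_add]
    have : SS hE (cc u σ τ) = cc u σ τ * exp (II hE (cc u σ τ)) := rfl
    rw [this]
    ring
  rw [h2] at h1
  exact h1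

theorem re_der_of {f : ℝ → ℂ} {f' : ℂ} {x : ℝ} (h : HasDerivAt f f' x) :
    HasDerivAt (fun x : ℝ => (f x).re) f'.re x :=
  (reCLM.hasFDerivAt.comp_hasDerivAt x h :)

theorem im_der_of {f : ℝ → ℂ} {f' : ℂ} {x : ℝ} (h : HasDerivAt f f' x) :
    HasDerivAt (fun x : ℝ => (f x).im) f'.im x :=
  (imCLM.hasFDerivAt.comp_hasDerivAt x h :)

theorem abs_im_lt (hE : EFun E) {u : ℂ} (hu : u ∈ ball (0 : ℂ) (rsOf E)) :
    |(SS hE u).im| < Real.pi / 2 := by
  by_contra hcon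
  push Not at hcon
  have hur : ‖u‖ < rsOf E := by simpa using hu
  -- the compact set of bad points
  have hsub : closedBall (0 : ℂ) ‖u‖ ⊆ ball 0 (rsOf E) := closedBall_subset_ball hur
  have hcont : ContinuousOn (fun v => |(SS hE v).im|) (closedBall (0 : ℂ) ‖u‖) := by
    intro v hv
    exact ((continuous_abs.comp continuous_im).continuousAt.comp
      (SS_cont hE (hsub hv))).continuousWithinAt
  have hcomp : IsCompact (closedBall (0 : ℂ) ‖u‖ ∩ (fun v => |(SS hE v).im|) ⁻¹'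
      (Ici (Real.pi / 2))) :=
    (isCompact_closedBall _ _).of_isClosed_subset
      (hcont.preimage_isClosed_of_isClosed isClosed_closedBall isClosed_Ici) inter_subset_left
  obtain ⟨v, hv, hvmin⟩ := hcomp.exists_isMinOn ⟨u, by simp, hcon⟩ continuous_norm.continuousOn
  have hvball : v ∈ ball (0 : ℂ) (rsOf E) := hsub hv.1
  have hv0 : v ≠ 0 := by
    rintro rfl
    have h1 : Real.pi / 2 ≤ |(SS hE 0).im| := hv.2
    rw [SS_zero] at h1
    simp at h1
    have := Real.pi_pos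
    linarith
  have hlt : ∀ w : ℂ, ‖w‖ < ‖v‖ → |(SS hE w).im| < Real.pi / 2 := by
    intro w hw
    by_contra hc
    push Not at hc
    have hw2 : ‖v‖ ≤ ‖u‖ := by simpa using hv.1
    have h2 := hvmin ⟨by simpa using (hw.le.trans hw2), hc⟩
    have h3 : ‖v‖ ≤ ‖w‖ := h2
    linarith
  have hle : ∀ w : ℂ, ‖w‖ = ‖v‖ → |(SS hE w).im| ≤ Real.pi / 2 := by
    intro w hw
    have hwball : w ∈ ball (0 : ℂ) (rsOf E) := by
      rw [mem_ball_zero_iff, hw]
      simpa using hvball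
    have h1 : Tendsto (fun t : ℝ => |(SS hE ((t : ℂ) * w)).im|) (𝓝[<] 1) (𝓝 |(SS hE w).im|) := by
      have h2 : Tendsto (fun t : ℝ => (t : ℂ) * w) (𝓝[<] 1) (𝓝 w) := by
        have h3 : Continuous (fun t : ℝ => (t : ℂ) * w) := by fun_prop
        have h4 := (h3.tendsto 1).mono_left (nhdsWithin_le_nhds (s := Iio 1))
        simpa using h4
      have h5 : ContinuousAt (fun w => |(SS hE w).im|) w :=
        (continuous_abs.comp continuous_im).continuousAt.comp (SS_cont hE hwball)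
      exact h5.tendsto.comp h2
    refine le_of_tendsto h1 ?_
    have h6 : ∀ᶠ t : ℝ in 𝓝[<] 1, 0 < t :=
      mem_nhdsWithin_of_mem_nhds (Ioi_mem_nhds (by norm_num))
    filter_upwards [h6, self_mem_nhdsWithin] with t ht0 ht1
    apply (hlt _ ?_).le
    rw [norm_mul, norm_real, Real.norm_of_nonneg ht0.le, hw]
    have hvn : 0 < ‖v‖ := norm_pos_iff.mpr hv0
    have ht1' : t < 1 := ht1
    nlinarith
  have heq : |(SS hE v).im| = Real.pi / 2 := le_antisymm (hle v rfl) hv.2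
  -- sign
  obtain ⟨s, hs2, hsv⟩ : ∃ s : ℝ, (s = 1 ∨ s = -1) ∧ s * (SS hE v).im = Real.pi / 2 := by
    rcases abs_cases (SS hE v).im with h | h
    · exact ⟨1, Or.inl rfl, by rw [one_mul, ← h.1, heq]⟩
    · exact ⟨-1, Or.inr rfl, by rw [neg_one_mul, ← h.1, heq]⟩
  have hmax : IsLocalMax (fun τ : ℝ => s * (SS hE (cc v 1 τ)).im) 0 := by
    apply Filter.Eventually.of_forall
    intro τ
    change s * (SS hE (cc v 1 τ)).im ≤ s * (SS hE (cc v 1 0)).im
    rw [cc_zero, hsv]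
    refine le_trans ?_ (hle _ (cc_norm v 1 τ))
    rcases hs2 with rfl | rfl
    · rw [one_mul]
      exact le_abs_self _
    · rw [neg_one_mul]
      exact neg_le_abs _
  have hder := (im_der_of (SS_cc_der hE hvball 1 0)).const_mul s
  have h0 := hmax.hasDerivAt_eq_zero hder
  rw [cc_zero] at h0
  have hs0 : s ≠ 0 := by rcases hs2 with rfl | rfl <;> norm_num
  have h1 := (mul_eq_zero.mp h0).resolve_left hs0
  have h2 : ((((1 : ℝ) : ℂ) * I * (SS hE v * exp (SS hE v))).im)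
      = Real.exp (SS hE v).re * ((SS hE v).re * Real.cos (SS hE v).im
        - (SS hE v).im * Real.sin (SS hE v).im) := by
    rw [ofReal_one, one_mul, I_mul_im, mul_re, exp_re, exp_im]
    ring
  rw [h2] at h1
  have h3 := (mul_eq_zero.mp h1).resolve_left (Real.exp_pos _).ne'
  have hy : (SS hE v).im = Real.pi / 2 ∨ (SS hE v).im = -(Real.pi / 2) := by
    rcases hs2 with rfl | rfl
    · left; linarith
    · right; linarith
  have hpi := Real.pi_pos
  rcases hy with hy | hy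
  · rw [hy, Real.cos_pi_div_two, Real.sin_pi_div_two] at h3
    linarith
  · rw [hy, Real.cos_neg, Real.sin_neg, Real.cos_pi_div_two, Real.sin_pi_div_two] at h3
    linarith

theorem exp_re_pos (hE : EFun E) {u : ℂ} (hu : u ∈ ball (0 : ℂ) (rsOf E)) :
    0 < (exp (SS hE u)).re := by
  rw [exp_re]
  have h := abs_lt.mp (abs_im_lt hE hu)
  exact mul_pos (Real.exp_pos _) (Real.cos_pos_of_mem_Ioo h)

/-- the argument of `S` along the circle is strictly increasing -/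
theorem arg_mono (hE : EFun E) {u : ℂ} (hu : u ∈ ball (0 : ℂ) (rsOf E)) :
    StrictMono (fun τ : ℝ => τ + (II hE (cc u 1 τ)).im) := by
  apply strictMono_of_deriv_pos
  intro τ
  have h1 := (hasDerivAt_id τ).add (im_der_of (II_cc_der hE hu 1 τ))
  have h2 : deriv (fun τ : ℝ => τ + (II hE (cc u 1 τ)).im) τ
      = 1 + (((1 : ℝ) : ℂ) * I * (exp (SS hE (cc u 1 τ)) - 1)).im := h1.deriv
  rw [h2, ofReal_one, one_mul, I_mul_im, sub_re, one_re]
  have h3 := exp_re_pos hE (cc_mem hu 1 τ)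
  linarith

theorem II_im_real (hE : EFun E) {x : ℝ} (hx : |x| < rsOf E) : (II hE x).im = 0 :=
  (II_good hE).real x hx

theorem cc_real (r τ : ℝ) : cc r 1 τ = r * exp (τ * I) := by simp [cc]

theorem arg_pi (hE : EFun E) {r : ℝ} (hr : |r| < rsOf E) :
    Real.pi + (II hE (cc r 1 Real.pi)).im = Real.pi := by
  have h1 : cc (r : ℂ) 1 Real.pi = ((-r : ℝ) : ℂ) := by
    rw [cc_real, exp_pi_mul_I]
    push_cast
    ring
  rw [h1, II_im_real hE (by rwa [abs_neg])]
  ring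

theorem arg_neg_pi (hE : EFun E) {r : ℝ} (hr : |r| < rsOf E) :
    -Real.pi + (II hE (cc r 1 (-Real.pi))).im = -Real.pi := by
  have h1 : cc (r : ℂ) 1 (-Real.pi) = ((-r : ℝ) : ℂ) := by
    rw [cc_real]
    push_cast
    rw [neg_mul, Complex.exp_neg, exp_pi_mul_I]
    norm_num
  rw [h1, II_im_real hE (by rwa [abs_neg])]
  ring

theorem cc_arg (u : ℂ) : cc (‖u‖ : ℝ) 1 (arg u) = u := by
  rw [cc_real]
  exact norm_mul_exp_arg_mul_I u

theorem S_arg' (hE : EFun E) {u : ℂ} (hu : u ∈ ball (0 : ℂ) (rsOf E)) (hs : u ∈ slitPlane) :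
    |arg u + (II hE u).im| < Real.pi := by
  have hn : |‖u‖| < rsOf E := by
    rw [abs_norm]
    simpa using hu
  have hball : ((‖u‖ : ℝ) : ℂ) ∈ ball (0 : ℂ) (rsOf E) := by simpa using hu
  have hm := arg_mono hE hball
  have h1 : arg u < Real.pi :=
    lt_of_le_of_ne (arg_le_pi u) (mem_slitPlane_iff_arg.mp hs).1
  have h2 : -Real.pi < arg u := neg_pi_lt_arg u
  have h3 := hm h1
  have h4 := hm h2
  simp only at h3 h4
  rw [arg_pi hE hn, cc_arg] at h3
  rw [arg_neg_pi hE hn, cc_arg] at h4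
  exact abs_lt.mpr ⟨h4, h3⟩

theorem SS_norm (hE : EFun E) (u : ℂ) : ‖SS hE u‖ = ‖u‖ * Real.exp (II hE u).re := by
  unfold SS
  rw [norm_mul, norm_exp]

theorem S_mono' (hE : EFun E) {ω : ℂ} (hω : ‖ω‖ = 1) :
    StrictMonoOn (fun t : ℝ => ‖SS hE (t * ω)‖) (Ico 0 (rsOf E)) := by
  have hmem : ∀ t : ℝ, |t| < rsOf E → (t : ℂ) * ω ∈ ball (0 : ℂ) (rsOf E) := by
    intro t ht
    rwa [mem_ball_zero_iff, norm_mul, hω, mul_one, norm_real, Real.norm_eq_abs]
  have hd : ∀ t : ℝ, |t| < rsOf E → HasDerivAt (fun t : ℝ => t * Real.exp (II hE (t * ω)).re)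
      (Real.exp (II hE (t * ω)).re * (exp (SS hE (t * ω))).re) t := by
    intro t ht
    have h2 : HasDerivAt (fun t : ℝ => (t : ℂ) * ω) ω t := by
      have := ((hasDerivAt_id t).ofReal_comp).mul_const ω
      simpa using this
    have h3 : HasDerivAt (fun t : ℝ => (II hE ((t : ℂ) * ω)).re)
        (FF ((t : ℂ) * ω) (II hE ((t : ℂ) * ω)) * ω).re t :=
      re_der_of (HasDerivAt.comp t (II_der hE (hmem t ht)) h2)
    have h4 := (hasDerivAt_id t).mul h3.exp
    have h5 : (1 * Real.exp (II hE (t * ω)).re + id t * (Real.exp (II hE (t * ω)).re *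
        (FF ((t : ℂ) * ω) (II hE ((t : ℂ) * ω)) * ω).re))
        = Real.exp (II hE (t * ω)).re * (exp (SS hE (t * ω))).re := by
      have h6 := congrArg Complex.re (mul_FF hE ((t : ℂ) * ω))
      have h7 : ((t : ℂ) * ω * FF ((t : ℂ) * ω) (II hE ((t : ℂ) * ω))).re
          = t * (FF ((t : ℂ) * ω) (II hE ((t : ℂ) * ω)) * ω).re := by
        rw [← re_ofReal_mul]
        congr 1
        ring
      rw [h7, sub_re, one_re] at h6
      simp only [id]
      linear_combination (Real.exp (II hE (t * ω)).re) * h6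
    rw [h5] at h4
    exact h4
  have hmono : StrictMonoOn (fun t : ℝ => t * Real.exp (II hE (t * ω)).re) (Ico 0 (rsOf E)) := by
    apply strictMonoOn_of_deriv_pos (convex_Ico _ _)
    · intro t ht
      exact (hd t (by rw [abs_of_nonneg ht.1]; exact ht.2)).continuousAt.continuousWithinAt
    · intro t ht
      rw [interior_Ico] at ht
      have hta : |t| < rsOf E := by rw [abs_of_nonneg ht.1.le]; exact ht.2
      rw [(hd t hta).deriv]
      exact mul_pos (Real.exp_pos _) (exp_re_pos hE (hmem t hta))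
  refine hmono.congr ?_
  intro t ht
  change t * Real.exp (II hE (t * ω)).re = ‖SS hE (t * ω)‖
  rw [SS_norm, norm_mul, hω, mul_one, norm_real, Real.norm_of_nonneg ht.1]

theorem S_bdd' (hE : EFun E) {θ : ℝ} (hθ : 0 < θ) {u : ℂ} (hu : u ∈ ball (0 : ℂ) (rsOf E))
    (hu2 : θ ≤ |arg u|) : ‖SS hE u‖ ≤ Real.pi / 2 + 1 / θ := by
  by_contra hcon
  push Not at hcon
  have hpi := Real.pi_pos
  obtain ⟨σ, hσ, hσu⟩ : ∃ σ : ℝ, (σ = 1 ∨ σ = -1) ∧ σ * |arg u| = arg u := by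
    rcases abs_cases (arg u) with h | h
    · exact ⟨1, Or.inl rfl, by rw [one_mul, h.1]⟩
    · exact ⟨-1, Or.inr rfl, by rw [h.1]; ring⟩
  have hσ2 : σ * σ = 1 := by rcases hσ with rfl | rfl <;> norm_num
  set r : ℝ := ‖u‖ with hr
  set θ₀ : ℝ := |arg u| with hθ₀
  have hθ₀pi : θ₀ ≤ Real.pi := abs_arg_le_pi u
  have hθ₀pos : 0 < θ₀ := hθ.trans_le hu2
  have hrball : ((r : ℝ) : ℂ) ∈ ball (0 : ℂ) (rsOf E) := by simpa [hr] using hu
  have hrabs : |r| < rsOf E := by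
    rw [hr, abs_norm]
    simpa using hu
  have hr0 : 0 ≤ r := norm_nonneg u
  have hend : cc r σ θ₀ = u := by
    unfold cc
    rw [hσu]
    exact norm_mul_exp_arg_mul_I u
  have hmem : ∀ τ : ℝ, cc r σ τ ∈ ball (0 : ℂ) (rsOf E) := fun τ => cc_mem hrball σ τ
  have hccσ : ∀ τ : ℝ, cc (r : ℂ) σ τ = cc (r : ℂ) 1 (σ * τ) := by
    intro τ
    simp [cc]
  -- the imaginary part has the right sign
  have hZ : ∀ τ : ℝ, SS hE (cc r σ τ) = ((r * Real.exp (II hE (cc r σ τ)).re : ℝ) : ℂ) *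
      exp (((σ * τ + (II hE (cc r σ τ)).im : ℝ) : ℂ) * I) := by
    intro τ
    exact cc_mul_exp r σ τ _
  have hα : ∀ τ ∈ Icc (0 : ℝ) θ₀, 0 ≤ σ * (σ * τ + (II hE (cc r σ τ)).im) ∧
      σ * (σ * τ + (II hE (cc r σ τ)).im) ≤ Real.pi := by
    intro τ hτ
    have hm := (arg_mono hE hrball).monotone
    have hzero : (0 : ℝ) + (II hE (cc r 1 0)).im = 0 := by
      rw [cc_zero, II_im_real hE hrabs, add_zero]
    have hτpi : τ ≤ Real.pi := hτ.2.trans hθ₀pi
    rw [hccσ τ]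
    rcases hσ with rfl | rfl
    · have h1 := hm hτ.1
      have h2 := hm hτpi
      simp only at h1 h2
      rw [hzero] at h1
      rw [arg_pi hE hrabs] at h2
      simp only [one_mul]
      exact ⟨h1, h2⟩
    · have h1 : (-1 : ℝ) * τ ≤ 0 := by linarith [hτ.1]
      have h2 : -Real.pi ≤ (-1 : ℝ) * τ := by linarith
      have h3 := hm h1
      have h4 := hm h2
      simp only at h3 h4
      rw [hzero] at h3
      rw [arg_neg_pi hE hrabs] at h4
      constructor <;> linarith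
  have hIm : ∀ τ ∈ Icc (0 : ℝ) θ₀, 0 ≤ σ * (SS hE (cc r σ τ)).im := by
    intro τ hτ
    obtain ⟨h1, h2⟩ := hα τ hτ
    have h3 : (SS hE (cc r σ τ)).im = (r * Real.exp (II hE (cc r σ τ)).re) *
        Real.sin (σ * τ + (II hE (cc r σ τ)).im) := by
      conv_lhs => rw [hZ τ]
      rw [im_ofReal_mul, exp_ofReal_mul_I_im]
    have h4 := mul_sin_of hσ (σ * τ + (II hE (cc r σ τ)).im)
    rw [h3]
    have h5 : 0 ≤ Real.sin (σ * (σ * τ + (II hE (cc r σ τ)).im)) :=
      Real.sin_nonneg_of_nonneg_of_le_pi h1 h2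
    have h6 : 0 ≤ r * Real.exp (II hE (cc r σ τ)).re := mul_nonneg hr0 (Real.exp_pos _).le
    calc (0 : ℝ) ≤ (r * Real.exp (II hE (cc r σ τ)).re) *
          Real.sin (σ * (σ * τ + (II hE (cc r σ τ)).im)) := mul_nonneg h6 h5
      _ = _ := by rw [← h4]; ring
  -- the modulus decreases
  have hanti : AntitoneOn (fun τ : ℝ => (II hE (cc r σ τ)).re) (Icc 0 θ₀) := by
    apply antitoneOn_of_deriv_nonpos (convex_Icc _ _)
    · intro τ _
      exact (re_der_of (II_cc_der hE hrball σ τ)).continuousAt.continuousWithinAt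
    · intro τ _
      exact (re_der_of (II_cc_der hE hrball σ τ)).differentiableAt.differentiableWithinAt
    · intro τ hτ
      rw [interior_Icc] at hτ
      have hτ' : τ ∈ Icc (0 : ℝ) θ₀ := Ioo_subset_Icc_self hτ
      rw [(re_der_of (II_cc_der hE hrball σ τ)).deriv]
      have h1 : ((σ : ℂ) * I * (exp (SS hE (cc r σ τ)) - 1)).re
          = -(Real.exp (SS hE (cc r σ τ)).re * Real.sin (σ * (SS hE (cc r σ τ)).im)) := by
        have h2 := mul_sin_of hσ (SS hE (cc r σ τ)).im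
        rw [← h2, mul_assoc, re_ofReal_mul, I_mul_re, sub_im, one_im, exp_im]
        ring
      rw [h1, neg_nonpos]
      have h3 := abs_lt.mp (abs_im_lt hE (hmem τ))
      have h4 : σ * (SS hE (cc r σ τ)).im ≤ Real.pi := by
        rcases hσ with rfl | rfl <;> linarith [h3.1, h3.2]
      exact mul_nonneg (Real.exp_pos _).le (Real.sin_nonneg_of_nonneg_of_le_pi (hIm τ hτ') h4)
  have hnorm : ∀ τ ∈ Icc (0 : ℝ) θ₀, ‖SS hE u‖ ≤ ‖SS hE (cc r σ τ)‖ := by
    intro τ hτ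
    have h1 := hanti hτ (⟨hθ₀pos.le, le_rfl⟩ : θ₀ ∈ Icc (0 : ℝ) θ₀) hτ.2
    simp only at h1
    rw [hend] at h1
    rw [SS_norm, SS_norm, cc_norm, norm_real, Real.norm_of_nonneg hr0]
    exact mul_le_mul_of_nonneg_left (Real.exp_le_exp.mpr h1) hr0
  have hreabs : ∀ τ ∈ Icc (0 : ℝ) θ₀, ‖SS hE u‖ - Real.pi / 2 < |(SS hE (cc r σ τ)).re| := by
    intro τ hτ
    have h1 := norm_le_abs_re_add_abs_im (SS hE (cc r σ τ))
    have h2 := abs_im_lt hE (hmem τ)
    have h3 := hnorm τ hτ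
    linarith
  have hMpos : 0 < ‖SS hE u‖ - Real.pi / 2 := by
    have : 0 < 1 / θ := by positivity
    linarith
  have hre0 : 0 ≤ (SS hE (cc r σ 0)).re := by
    have h1 : (SS hE (cc r σ 0)).re = (r * Real.exp (II hE (cc r σ 0)).re) *
        Real.cos (σ * 0 + (II hE (cc r σ 0)).im) := by
      conv_lhs => rw [hZ 0]
      rw [re_ofReal_mul, exp_ofReal_mul_I_re]
    rw [h1, cc_zero, II_im_real hE hrabs]
    simp only [mul_zero, add_zero, Real.cos_zero, mul_one]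
    exact mul_nonneg hr0 (Real.exp_pos _).le
  have hrecont : ContinuousOn (fun τ : ℝ => (SS hE (cc r σ τ)).re) (Icc 0 θ₀) := fun τ _ =>
    (re_der_of (SS_cc_der hE hrball σ τ)).continuousAt.continuousWithinAt
  have hrepos : ∀ τ ∈ Icc (0 : ℝ) θ₀, ‖SS hE u‖ - Real.pi / 2 < (SS hE (cc r σ τ)).re := by
    intro τ hτ
    have hnonneg : 0 ≤ (SS hE (cc r σ τ)).re := by
      by_contra hneg
      push Not at hneg
      have hsub : Icc (0 : ℝ) τ ⊆ Icc 0 θ₀ := Icc_subset_Icc_right hτ.2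
      obtain ⟨t, ht, ht0⟩ := intermediate_value_Icc' hτ.1 (hrecont.mono hsub)
        (⟨hneg.le, hre0⟩ : (0 : ℝ) ∈ Icc _ _)
      have h1 := hreabs t (hsub ht)
      simp only at ht0
      rw [ht0, abs_zero] at h1
      linarith
    have h1 := hreabs τ hτ
    rwa [abs_of_nonneg hnonneg] at h1
  -- the function `v`
  have hv : ∀ τ : ℝ, HasDerivAt (fun τ : ℝ => -(σ * (exp (-(SS hE (cc r σ τ)))).im))
      (SS hE (cc r σ τ)).re τ := by
    intro τ
    have h1 := ((im_der_of ((SS_cc_der hE hrball σ τ).neg.cexp)).const_mul σ).neg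
    have h2 : -(σ * (exp (-(SS hE (cc r σ τ))) *
        -(σ * I * (SS hE (cc r σ τ) * exp (SS hE (cc r σ τ))))).im) = (SS hE (cc r σ τ)).re := by
      have h3 : exp (-(SS hE (cc r σ τ))) * exp (SS hE (cc r σ τ)) = 1 := by
        rw [← exp_add]; simp
      have h4 : exp (-(SS hE (cc r σ τ))) *
        -(σ * I * (SS hE (cc r σ τ) * exp (SS hE (cc r σ τ)))) = (σ : ℂ) * (I * -(SS hE (cc r σ τ))) := by
        linear_combination (-(σ * I * SS hE (cc r σ τ))) * h3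
      rw [h4, im_ofReal_mul, I_mul_im, neg_re]
      linear_combination ((SS hE (cc r σ τ)).re) * hσ2
    exact h2 ▸ h1
  have hvmono : MonotoneOn (fun τ : ℝ => -(σ * (exp (-(SS hE (cc r σ τ)))).im)
      - (‖SS hE u‖ - Real.pi / 2) * τ) (Icc 0 θ₀) := by
    have hd : ∀ τ : ℝ, HasDerivAt (fun τ : ℝ => -(σ * (exp (-(SS hE (cc r σ τ)))).im)
      - (‖SS hE u‖ - Real.pi / 2) * τ) ((SS hE (cc r σ τ)).re - (‖SS hE u‖ - Real.pi / 2)) τ := by
      intro τ
      have h1 := (hasDerivAt_id τ).const_mul (‖SS hE u‖ - Real.pi / 2)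
      rw [mul_one] at h1
      exact (hv τ).sub h1
    apply monotoneOn_of_deriv_nonneg (convex_Icc _ _)
    · intro τ _
      exact (hd τ).continuousAt.continuousWithinAt
    · intro τ _
      exact (hd τ).differentiableAt.differentiableWithinAt
    · intro τ hτ
      rw [interior_Icc] at hτ
      rw [(hd τ).deriv]
      have := hrepos τ (Ioo_subset_Icc_self hτ)
      linarith
  have h1 := hvmono (⟨le_rfl, hθ₀pos.le⟩ : (0 : ℝ) ∈ Icc (0 : ℝ) θ₀)
    (⟨hθ₀pos.le, le_rfl⟩ : θ₀ ∈ Icc (0 : ℝ) θ₀) hθ₀pos.le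
  simp only [mul_zero, sub_zero] at h1
  have h2 : (exp (-(SS hE (cc r σ 0)))).im = 0 := by
    have h3 : SS hE (cc r σ 0) = ((r * Real.exp (II hE (r : ℂ)).re : ℝ) : ℂ) := by
      rw [hZ 0, cc_zero, II_im_real hE hrabs]
      simp
    rw [h3, ← ofReal_neg, ← ofReal_exp, ofReal_im]
  rw [h2, mul_zero, neg_zero] at h1
  have h4 : -(σ * (exp (-(SS hE (cc r σ θ₀)))).im) < 1 := by
    have h5 : |(exp (-(SS hE (cc r σ θ₀)))).im| ≤ ‖exp (-(SS hE (cc r σ θ₀)))‖ := abs_im_le_norm _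
    have h6 : ‖exp (-(SS hE (cc r σ θ₀)))‖ < 1 := by
      rw [norm_exp, Real.exp_lt_one_iff, neg_re]
      have := hrepos θ₀ ⟨hθ₀pos.le, le_rfl⟩
      linarith
    have h7 := abs_lt.mp (h5.trans_lt h6)
    rcases hσ with rfl | rfl
    · linarith [h7.1]
    · linarith [h7.2]
  have h8 : (‖SS hE u‖ - Real.pi / 2) * θ₀ < 1 := by linarith
  have h9 : 1 < (‖SS hE u‖ - Real.pi / 2) * θ := by
    have h10 : 1 / θ < ‖SS hE u‖ - Real.pi / 2 := by linarith
    have h11 := mul_lt_mul_of_pos_right h10 hθ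
    rwa [one_div, inv_mul_cancel₀ hθ.ne'] at h11
  have h12 : (‖SS hE u‖ - Real.pi / 2) * θ ≤ (‖SS hE u‖ - Real.pi / 2) * θ₀ :=
    mul_le_mul_of_nonneg_left hu2 hMpos.le
  linarith

end Pool.Agent.H7.Crem
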