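import Pool.Agent.H7.Crem.Picard

/-!
# The limit of the Picard iteration
-/

set_option autoImplicit false

open Complex Metric Set Filter Topology
open Pool.Agent.H44.Crem (WRof)

namespace Pool.Agent.H7.Crem

variable {E : ℂ → ℂ}

/-- The Picard sequence -/
noncomputable def JJ (hE : EFun E) : ℕ → {J : ℂ → ℂ // Good E J}
  | 0 => ⟨fun _ => 0, Good.const hE⟩
  | (n + 1) => ⟨((JJ hE n).2.step hE).choose, ((JJ hE n).2.step hE).choose_spec.1⟩

theorem JJ_der (hE : EFun E) (n : ℕ) : ∀ u ∈ ball (0 : ℂ) (rsOf E),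
    HasDerivAt (JJ hE (n + 1)).1 (FF u ((JJ hE n).1 u)) u :=
  ((JJ hE n).2.step hE).choose_spec.2

theorem JJ_diff_bound (hE : EFun E) {x : ℝ} (hx : 0 ≤ x) {L : ℝ} (hL : 0 ≤ L)
    (hLip : ∀ u : ℂ, ‖u‖ ≤ WRof E x → ∀ a b : ℂ, ‖a‖ ≤ -(E x).re → ‖b‖ ≤ -(E x).re →
      ‖FF u a - FF u b‖ ≤ L * ‖a - b‖) (n : ℕ) :
    ∀ u : ℂ, ‖u‖ ≤ WRof E x →
      ‖(JJ hE (n + 1)).1 u - (JJ hE n).1 u‖ ≤
        (2 * -(E x).re * L ^ n / (n.factorial : ℝ)) * ‖u‖ ^ n := by
  have hM : 0 ≤ -(E x).re := by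
    have := hE.re_nonpos hx
    linarith
  induction n with
  | zero =>
    intro u hu
    have h1 := (JJ hE (0 + 1)).2.bound' hE hx hu
    have h2 := (JJ hE 0).2.bound' hE hx hu
    calc _ ≤ ‖(JJ hE (0 + 1)).1 u‖ + ‖(JJ hE 0).1 u‖ := norm_sub_le _ _
      _ ≤ -(E x).re + -(E x).re := add_le_add h1 h2
      _ = _ := by simp; ring
  | succ n ih =>
    intro u hu
    have := step_diff (hE.W_lt hx) hL n (JJ_der hE (n + 1)) (JJ_der hE n)
      (JJ hE (n + 1 + 1)).2.zero (JJ hE (n + 1)).2.zero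
      (fun u hu => hLip u hu _ _ ((JJ hE (n + 1)).2.bound' hE hx hu)
        ((JJ hE n).2.bound' hE hx hu)) ih u hu
    refine this.trans (le_of_eq ?_)
    congr 1
    rw [Nat.factorial_succ]
    push_cast
    have h3 : (n.factorial : ℝ) ≠ 0 := by positivity
    have h4 : (n : ℝ) + 1 ≠ 0 := by positivity
    field_simp
    ring

theorem exists_x_of_lt (hE : EFun E) {u : ℂ} (hu : u ∈ ball (0 : ℂ) (rsOf E)) :
    ∃ x : ℝ, 0 ≤ x ∧ ‖u‖ < WRof E x := by
  rw [mem_ball_zero_iff] at hu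
  obtain ⟨x, hx, hxu⟩ := hE.W_surj (norm_nonneg u) hu
  exact ⟨x + 1, by linarith, by rw [← hxu]; exact hE.W_strictMono (by linarith)⟩

/-- the limit -/
noncomputable def II (hE : EFun E) (u : ℂ) : ℂ :=
  ∑' n, ((JJ hE (n + 1)).1 u - (JJ hE n).1 u)

theorem unif (hE : EFun E) {x : ℝ} (hx : 0 ≤ x) :
    TendstoUniformlyOn (fun n => (JJ hE n).1) (II hE) atTop (closedBall 0 (WRof E x)) := by
  obtain ⟨L, hL, hLip⟩ := FF_lip (WRof E x) (-(E x).re)
  have hM : 0 ≤ -(E x).re := by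
    have := hE.re_nonpos hx
    linarith
  have hW := hE.W_nonneg hx
  have hs : Summable (fun n : ℕ => 2 * -(E x).re * ((L * WRof E x) ^ n / (n.factorial : ℝ))) :=
    (Real.summable_pow_div_factorial _).mul_left _
  have h1 := tendstoUniformlyOn_tsum_nat hs (s := closedBall (0 : ℂ) (WRof E x))
    (f := fun n u => (JJ hE (n + 1)).1 u - (JJ hE n).1 u) (by
      intro n u hu
      rw [mem_closedBall_zero_iff] at hu
      refine (JJ_diff_bound hE hx hL hLip n u hu).trans ?_
      have h2 : ‖u‖ ^ n ≤ (WRof E x) ^ n := pow_le_pow_left₀ (norm_nonneg _) hu n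
      calc (2 * -(E x).re * L ^ n / (n.factorial : ℝ)) * ‖u‖ ^ n
          ≤ (2 * -(E x).re * L ^ n / (n.factorial : ℝ)) * (WRof E x) ^ n :=
            mul_le_mul_of_nonneg_left h2 (by positivity)
        _ = _ := by rw [mul_pow]; ring)
  refine h1.congr (Eventually.of_forall fun n u _ => ?_)
  change ∑ i ∈ Finset.range n, ((JJ hE (i + 1)).1 u - (JJ hE i).1 u) = _
  rw [Finset.sum_range_sub (fun i => (JJ hE i).1 u)]
  change (JJ hE n).1 u - 0 = _
  rw [sub_zero]

theorem locunif (hE : EFun E) :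
    TendstoLocallyUniformlyOn (fun n => (JJ hE n).1) (II hE) atTop (ball 0 (rsOf E)) := by
  apply tendstoLocallyUniformlyOn_of_forall_exists_nhds
  intro u hu
  obtain ⟨x, hx, hxu⟩ := exists_x_of_lt hE hu
  refine ⟨closedBall 0 (WRof E x), ?_, unif hE hx⟩
  apply mem_nhdsWithin_of_mem_nhds
  exact closedBall_mem_nhds_of_mem (by simpa using hxu)

theorem tendsto_pt (hE : EFun E) {u : ℂ} (hu : u ∈ ball (0 : ℂ) (rsOf E)) :
    Tendsto (fun n => (JJ hE n).1 u) atTop (𝓝 (II hE u)) :=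
  (locunif hE).tendsto_at hu

theorem II_good (hE : EFun E) : Good E (II hE) where
  zero := by
    refine tendsto_nhds_unique (tendsto_pt hE (by simpa using hE.rs_pos)) ?_
    simp only [(JJ hE _).2.zero]
    exact tendsto_const_nhds
  diff := (locunif hE).differentiableOn (Eventually.of_forall fun n => (JJ hE n).2.diff)
    isOpen_ball
  real := by
    intro x hx
    have h1 := (tendsto_pt hE (u := x) (by simpa using hx))
    have h2 := (continuous_im.tendsto _).comp h1
    refine tendsto_nhds_unique h2 ?_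
    have : (im ∘ fun n => (JJ hE n).1 x) = fun _ => (0 : ℝ) := by
      ext n
      exact (JJ hE n).2.real x hx
    rw [this]
    exact tendsto_const_nhds
  bound := by
    intro ω hω x hx
    have h1 := (tendsto_pt hE (W_mul_mem hE hω hx)).norm
    exact le_of_tendsto h1 (Eventually.of_forall fun n => (JJ hE n).2.bound ω hω x hx)

theorem II_der (hE : EFun E) {u : ℂ} (hu : u ∈ ball (0 : ℂ) (rsOf E)) :
    HasDerivAt (II hE) (FF u (II hE u)) u := by
  have hd : DifferentiableAt ℂ (II hE) u := (II_good hE).diff.differentiableAt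
    (isOpen_ball.mem_nhds hu)
  have h1 := ((locunif hE).deriv (Eventually.of_forall fun n => (JJ hE n).2.diff)
    isOpen_ball).tendsto_at hu
  have h2 : Tendsto (fun n => deriv (JJ hE (n + 1)).1 u) atTop (𝓝 (deriv (II hE) u)) :=
    (tendsto_add_atTop_iff_nat 1).mpr h1
  have h3 : Tendsto (fun n => FF u ((JJ hE n).1 u)) atTop (𝓝 (FF u (II hE u))) := by
    have hc : Continuous (fun y => FF u y) :=
      FF_diff.continuous.comp (continuous_const.prodMk continuous_id)
    exact (hc.tendsto _).comp (tendsto_pt hE hu)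
  have h4 : deriv (II hE) u = FF u (II hE u) := by
    refine tendsto_nhds_unique h2 ?_
    refine h3.congr fun n => ?_
    exact (JJ_der hE n u hu).deriv.symm
  rw [← h4]
  exact hd.hasDerivAt

end Pool.Agent.H7.Crem
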