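import Pool.Agent.H44.Crem.Defs

/-!
# The function `φ(s) = (e^s - 1)/s` and the entire function `E`
-/

set_option autoImplicit false

open Complex Metric Set Filter Topology

namespace Pool.Agent.H7.Crem

/-- `φ(s) = (e^s - 1)/s` -/
noncomputable def phi (s : ℂ) : ℂ := dslope exp 0 s

theorem phi_mul (s : ℂ) : s * phi s = exp s - 1 := by
  by_cases hs : s = 0
  · simp [hs]
  · unfold phi
    rw [dslope_of_ne _ hs, slope_def_field]
    simp only [sub_zero, exp_zero]
    field_simp

theorem phi_zero : phi 0 = 1 := by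
  unfold phi
  rw [dslope_same]
  simp

theorem phi_diff : Differentiable ℂ phi := by
  intro s
  have h1 : DifferentiableOn ℂ (dslope exp (0 : ℂ)) (univ : Set ℂ) :=
    (differentiableOn_dslope (by simp)).mpr Complex.differentiable_exp.differentiableOn
  exact (h1 s (mem_univ s)).differentiableAt (by simp)

theorem phi_neg (s : ℂ) : phi (-s) = exp (-s) * phi s := by
  by_cases hs : s = 0
  · simp [hs]
  · have h1 := phi_mul (-s)
    have h2 := phi_mul s
    have h3 : exp (-s) * exp s = 1 := by rw [← exp_add]; simp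
    have h4 : s * phi (-s) = s * (exp (-s) * phi s) := by
      linear_combination (-1 : ℂ) * h1 - exp (-s) * h2 - h3
    exact mul_left_cancel₀ hs h4

theorem phi_integral (s : ℂ) : phi s = ∫ x in (0 : ℝ)..1, exp (s * x) := by
  by_cases hs : s = 0
  · simp [hs, phi_zero]
  · rw [integral_exp_mul_complex hs]
    have h1 := phi_mul s
    simp only [ofReal_one, mul_one, ofReal_zero, mul_zero, exp_zero]
    field_simp
    linear_combination h1

theorem phi_ofReal (x : ℝ) : phi x = ((∫ t in (0 : ℝ)..1, Real.exp (x * t) : ℝ) : ℂ) := by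
  rw [phi_integral, ← intervalIntegral.integral_ofReal]
  congr 1
  ext t
  push_cast
  rfl

theorem phi_re_ofReal (x : ℝ) : (phi x).re = ∫ t in (0 : ℝ)..1, Real.exp (x * t) := by
  rw [phi_ofReal, ofReal_re]

theorem phi_ofReal_im (x : ℝ) : (phi x).im = 0 := by
  rw [phi_ofReal, ofReal_im]

theorem phi_ofReal_re (x : ℝ) : phi x = (((phi x).re : ℝ) : ℂ) := by
  rw [phi_re_ofReal, phi_ofReal]

theorem phi_re_mul (x : ℝ) : x * (phi x).re = Real.exp x - 1 := by
  have h := phi_mul (x : ℂ)
  rw [phi_ofReal_re x] at h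
  have h2 : ((x * (phi x).re : ℝ) : ℂ) = ((Real.exp x - 1 : ℝ) : ℂ) := by
    push_cast
    exact h
  exact_mod_cast h2

theorem phi_re_neg (x : ℝ) : (phi (-(x : ℂ))).re = Real.exp (-x) * (phi x).re := by
  rw [phi_neg, phi_ofReal_re x]
  have : exp (-(x : ℂ)) = ((Real.exp (-x) : ℝ) : ℂ) := by push_cast; rfl
  rw [this, ← ofReal_mul, ofReal_re, ofReal_re]

theorem norm_phi_le (s : ℂ) (t : ℝ) (h : ‖s‖ ≤ t) : ‖phi s‖ ≤ (phi t).re := by
  rw [phi_integral, phi_re_ofReal]
  refine intervalIntegral.norm_integral_le_of_norm_le (by norm_num) ?_ ?_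
  · refine Filter.Eventually.of_forall fun x hx => ?_
    rw [norm_exp]
    apply Real.exp_le_exp.mpr
    have hx0 : 0 < x := hx.1
    have h1 : (s * (x : ℂ)).re = s.re * x := by simp
    rw [h1]
    have h2 : s.re ≤ ‖s‖ := re_le_norm s
    nlinarith
  · apply Continuous.intervalIntegrable
    fun_prop

theorem phi_re_pos (x : ℝ) : 0 < (phi x).re := by
  rw [phi_re_ofReal]
  apply intervalIntegral.intervalIntegral_pos_of_pos
  · apply Continuous.intervalIntegrable
    fun_prop
  · intro t
    exact Real.exp_pos _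
  · norm_num

/-- the entire function `E` -/
theorem exists_E : ∃ E : ℂ → ℂ, E 0 = 0 ∧ ∀ s, HasDerivAt E (- phi (-s)) s := by
  have h1 : Differentiable ℂ (fun s => - phi (-s)) := by
    have := phi_diff
    fun_prop
  obtain ⟨g, hg0, hg⟩ := (Differentiable.isExactOn_univ h1).with_val_at 0 0
  exact ⟨g, hg0, fun s => hg s (mem_univ s)⟩

end Pool.Agent.H7.Crem
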