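import Pool.Agent.H7.Crem.WReal

/-!
# Picard iteration for `I' = e^I φ(u e^I)`
-/

set_option autoImplicit false

open Complex Metric Set Filter Topology
open Pool.Agent.H44.Crem (WRof)

namespace Pool.Agent.H7.Crem

variable {E : ℂ → ℂ}

/-- the right-hand side of the ODE `I' = F(u, I)` -/
noncomputable def FF (u y : ℂ) : ℂ := exp y * phi (u * exp y)

theorem FF_mul (u y : ℂ) : u * FF u y = exp (u * exp y) - 1 := by
  have := phi_mul (u * exp y)
  unfold FF
  linear_combination this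

theorem FF_diff : Differentiable ℂ (fun p : ℂ × ℂ => FF p.1 p.2) := by
  have := phi_diff
  unfold FF
  fun_prop

theorem FF_real (x : ℝ) (y : ℂ) (hy : y.im = 0) : (FF x y).im = 0 := by
  have h1 : y = ((y.re : ℝ) : ℂ) := by
    apply Complex.ext <;> simp [hy]
  unfold FF
  rw [h1, ← ofReal_exp, ← ofReal_mul, phi_ofReal_re, ← ofReal_mul, ofReal_im]

theorem FF_bound (hE : EFun E) {ω y : ℂ} (hω : ‖ω‖ = 1) {t : ℝ} (ht : 0 ≤ t)
    (hy : ‖y‖ ≤ -(E t).re) :
    ‖FF ((WRof E t : ℂ) * ω) y‖ ≤ Real.exp (-(E t).re) * (phi t).re := by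
  have h1 : ‖exp y‖ ≤ Real.exp (-(E t).re) := by
    rw [norm_exp]
    exact Real.exp_le_exp.mpr ((re_le_norm y).trans hy)
  have h2 : ‖(WRof E t : ℂ) * ω * exp y‖ ≤ t := by
    rw [norm_mul, norm_mul, hω, mul_one, norm_real, Real.norm_of_nonneg (hE.W_nonneg ht)]
    calc WRof E t * ‖exp y‖ ≤ WRof E t * Real.exp (-(E t).re) :=
          mul_le_mul_of_nonneg_left h1 (hE.W_nonneg ht)
      _ = t := by
          unfold WRof
          rw [mul_assoc, ← Real.exp_add]
          simp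
  unfold FF
  rw [norm_mul]
  exact mul_le_mul h1 (norm_phi_le _ _ h2) (norm_nonneg _) (Real.exp_pos _).le

/-- properties kept along the iteration -/
structure Good (E J : ℂ → ℂ) : Prop where
  zero : J 0 = 0
  diff : DifferentiableOn ℂ J (ball 0 (rsOf E))
  real : ∀ x : ℝ, |x| < rsOf E → (J x).im = 0
  bound : ∀ ω : ℂ, ‖ω‖ = 1 → ∀ x : ℝ, 0 ≤ x → ‖J ((WRof E x : ℂ) * ω)‖ ≤ -(E x).re

theorem W_mul_mem (hE : EFun E) {ω : ℂ} (hω : ‖ω‖ = 1) {t : ℝ} (ht : 0 ≤ t) :
    (WRof E t : ℂ) * ω ∈ ball (0 : ℂ) (rsOf E) := by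
  rw [mem_ball_zero_iff, norm_mul, hω, mul_one, norm_real, Real.norm_of_nonneg (hE.W_nonneg ht)]
  exact hE.W_lt ht

theorem Good.const (hE : EFun E) : Good E (fun _ => 0) where
  zero := rfl
  diff := by fun_prop
  real := by simp
  bound := by
    intro ω _ x hx
    have := hE.re_nonpos hx
    simp only [norm_zero]
    linarith

theorem real_of_deriv {R : ℝ} (hR : 0 < R) {J J' : ℂ → ℂ} (h0 : J 0 = 0)
    (hd : ∀ u ∈ ball (0 : ℂ) R, HasDerivAt J (J' u) u)
    (hre : ∀ x : ℝ, |x| < R → (J' x).im = 0) : ∀ x : ℝ, |x| < R → (J x).im = 0 := by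
  have h1 : ∀ x ∈ Ioo (-R) R, HasDerivAt (fun x : ℝ => (J x).im) 0 x := by
    intro x hx
    have hx' : |x| < R := abs_lt.mpr hx
    have h2 := hasDerivAt_im_ofReal (hd (x : ℂ) (by simpa using hx'))
    rwa [hre x hx'] at h2
  intro x hx
  have h3 := IsOpen.is_const_of_deriv_eq_zero (s := Ioo (-R) R) isOpen_Ioo isPreconnected_Ioo
    (f := fun x : ℝ => (J x).im)
    (fun y hy => (h1 y hy).differentiableAt.differentiableWithinAt)
    (fun y hy => (h1 y hy).deriv) (x := x) (y := 0) (abs_lt.mp hx) ⟨by linarith, hR⟩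
  simpa [h0] using h3

theorem Good.step (hE : EFun E) {J : ℂ → ℂ} (hJ : Good E J) :
    ∃ J' : ℂ → ℂ, Good E J' ∧ ∀ u ∈ ball (0 : ℂ) (rsOf E), HasDerivAt J' (FF u (J u)) u := by
  have hd : DifferentiableOn ℂ (fun u => FF u (J u)) (ball 0 (rsOf E)) :=
    FF_diff.comp_differentiableOn (differentiableOn_id.prodMk hJ.diff)
  obtain ⟨J', h0, hder⟩ := hd.isExactOn_ball.with_val_at 0 0
  refine ⟨J', ⟨h0, fun u hu => (hder u hu).differentiableAt.differentiableWithinAt, ?_, ?_⟩, hder⟩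
  · exact real_of_deriv hE.rs_pos h0 hder (fun x hx => FF_real x _ (hJ.real x hx))
  · intro ω hω x hx
    have hK : ∀ t : ℝ, 0 ≤ t → HasDerivAt (fun t : ℝ => J' ((WRof E t : ℂ) * ω))
        (FF ((WRof E t : ℂ) * ω) (J ((WRof E t : ℂ) * ω)) *
          (((Real.exp ((E t).re - t) : ℝ) : ℂ) * ω)) t := by
      intro t ht
      have h1 := hder _ (W_mul_mem hE hω ht)
      have h2 : HasDerivAt (fun t : ℝ => (WRof E t : ℂ) * ω)
          (((Real.exp ((E t).re - t) : ℝ) : ℂ) * ω) t :=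
        ((hE.W_der t).ofReal_comp).mul_const ω
      exact HasDerivAt.comp t h1 h2
    have hB : ∀ t : ℝ, HasDerivAt (fun t : ℝ => -(E t).re) ((phi (-(t : ℂ))).re) t := by
      intro t
      have := (hE.re_der t).neg
      rwa [neg_neg] at this
    have key := image_norm_le_of_norm_deriv_right_le_deriv_boundary (a := 0) (b := x)
      (f := fun t : ℝ => J' ((WRof E t : ℂ) * ω)) (B := fun t : ℝ => -(E t).re)
      (fun t ht => (hK t ht.1).continuousAt.continuousWithinAt)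
      (fun t ht => (hK t ht.1).hasDerivWithinAt)
      (by simp [W_zero, h0, hE.zero]) hB ?_
    · exact key ⟨hx, le_rfl⟩
    · intro t ht
      rw [norm_mul, norm_mul, hω, mul_one, norm_real, Real.norm_of_nonneg (Real.exp_pos _).le]
      have h1 := FF_bound hE hω ht.1 (hJ.bound ω hω t ht.1)
      calc ‖FF ((WRof E t : ℂ) * ω) (J ((WRof E t : ℂ) * ω))‖ * Real.exp ((E t).re - t)
          ≤ (Real.exp (-(E t).re) * (phi t).re) * Real.exp ((E t).re - t) :=
            mul_le_mul_of_nonneg_right h1 (Real.exp_pos _).le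
        _ = (phi (-(t : ℂ))).re := by
            rw [phi_re_neg]
            have : Real.exp (-(E t).re) * Real.exp ((E t).re - t) = Real.exp (-t) := by
              rw [← Real.exp_add]
              congr 1
              ring
            rw [← this]
            ring

theorem Good.bound' (hE : EFun E) {J : ℂ → ℂ} (hJ : Good E J) {x : ℝ} (hx : 0 ≤ x) {u : ℂ}
    (hu : ‖u‖ ≤ WRof E x) : ‖J u‖ ≤ -(E x).re := by
  obtain ⟨x', hx', hx'u⟩ := hE.W_surj (norm_nonneg u) (hu.trans_lt (hE.W_lt hx))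
  have hle : x' ≤ x := by
    by_contra hcon
    push Not at hcon
    have := hE.W_strictMono hcon
    rw [hx'u] at this
    linarith
  have hmono : -(E x').re ≤ -(E x).re := neg_le_neg (hE.anti.antitone hle)
  refine le_trans ?_ hmono
  by_cases hu0 : u = 0
  · rw [hu0, hJ.zero, norm_zero]
    have := hE.re_nonpos hx'
    linarith
  · have hn : (‖u‖ : ℂ) ≠ 0 := by simpa using hu0
    have h1 := hJ.bound (u / ‖u‖) (by rw [norm_div, norm_real, norm_norm]; exact div_self (by simpa using hu0)) x' hx'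
    rw [hx'u] at h1
    rwa [mul_div_cancel₀ _ hn] at h1

/-- Lipschitz constant on compact sets -/
theorem FF_lip (r M : ℝ) : ∃ L : ℝ, 0 ≤ L ∧ ∀ u : ℂ, ‖u‖ ≤ r → ∀ a b : ℂ, ‖a‖ ≤ M → ‖b‖ ≤ M →
    ‖FF u a - FF u b‖ ≤ L * ‖a - b‖ := by
  have hd : ∀ u y : ℂ, HasDerivAt (fun y => FF u y)
      (exp y * phi (u * exp y) + exp y * (deriv phi (u * exp y) * (u * exp y))) y := by
    intro u y
    have h1 : HasDerivAt (fun y => u * exp y) (u * exp y) y := (hasDerivAt_exp y).const_mul u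
    have h2 : HasDerivAt (fun y => phi (u * exp y)) (deriv phi (u * exp y) * (u * exp y)) y :=
      HasDerivAt.comp y (phi_diff (u * exp y)).hasDerivAt h1
    exact (hasDerivAt_exp y).mul h2
  have hc : Continuous (fun p : ℂ × ℂ => exp p.2 * phi (p.1 * exp p.2) +
      exp p.2 * (deriv phi (p.1 * exp p.2) * (p.1 * exp p.2))) := by
    have h1 : Continuous (deriv phi) := (phi_diff.deriv).continuous
    have h2 : Continuous phi := phi_diff.continuous
    fun_prop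
  obtain ⟨C, hC⟩ := ((isCompact_closedBall (0 : ℂ) r).prod
    (isCompact_closedBall (0 : ℂ) M)).exists_bound_of_continuousOn hc.continuousOn
  refine ⟨max C 0, le_max_right _ _, ?_⟩
  intro u hu a b ha hb
  refine Convex.norm_image_sub_le_of_norm_hasDerivWithin_le (s := closedBall (0 : ℂ) M)
    (f' := fun y => exp y * phi (u * exp y) + exp y * (deriv phi (u * exp y) * (u * exp y)))
    (fun y hy => (hd u y).hasDerivWithinAt) ?_ (convex_closedBall _ _) (by simpa using hb)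
    (by simpa using ha)
  intro y hy
  exact (hC (u, y) ⟨by simpa using hu, hy⟩).trans (le_max_left _ _)

theorem step_diff {R r L A : ℝ} (hr : r < R) (hL : 0 ≤ L) (n : ℕ)
    {J J' K K' : ℂ → ℂ} (hJ : ∀ u ∈ ball (0 : ℂ) R, HasDerivAt J' (FF u (J u)) u)
    (hK : ∀ u ∈ ball (0 : ℂ) R, HasDerivAt K' (FF u (K u)) u) (hJ0 : J' 0 = 0) (hK0 : K' 0 = 0)
    (hLip : ∀ u : ℂ, ‖u‖ ≤ r → ‖FF u (J u) - FF u (K u)‖ ≤ L * ‖J u - K u‖)
    (hb : ∀ u : ℂ, ‖u‖ ≤ r → ‖J u - K u‖ ≤ A * ‖u‖ ^ n) :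
    ∀ u : ℂ, ‖u‖ ≤ r → ‖J' u - K' u‖ ≤ (L * A / (n + 1)) * ‖u‖ ^ (n + 1) := by
  intro u hu
  have hmem : ∀ t ∈ Icc (0 : ℝ) 1, ‖(t : ℂ) * u‖ ≤ r := by
    intro t ht
    rw [norm_mul, norm_real, Real.norm_of_nonneg ht.1]
    calc t * ‖u‖ ≤ 1 * ‖u‖ := mul_le_mul_of_nonneg_right ht.2 (norm_nonneg _)
      _ ≤ r := by rw [one_mul]; exact hu
  have hD : ∀ t ∈ Icc (0 : ℝ) 1, HasDerivAt (fun t : ℝ => J' ((t : ℂ) * u) - K' ((t : ℂ) * u))
      ((FF ((t : ℂ) * u) (J ((t : ℂ) * u)) - FF ((t : ℂ) * u) (K ((t : ℂ) * u))) * u) t := by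
    intro t ht
    have hb1 : (t : ℂ) * u ∈ ball (0 : ℂ) R := by
      rw [mem_ball_zero_iff]
      exact (hmem t ht).trans_lt hr
    have h2 : HasDerivAt (fun t : ℝ => (t : ℂ) * u) u t := by
      have := ((hasDerivAt_id t).ofReal_comp).mul_const u
      simpa using this
    have h3 := HasDerivAt.comp t (hJ _ hb1) h2
    have h4 := HasDerivAt.comp t (hK _ hb1) h2
    have h5 := h3.sub h4
    rw [← sub_mul] at h5
    exact h5
  have hB : ∀ t : ℝ, HasDerivAt (fun t : ℝ => (L * A / (n + 1)) * ‖u‖ ^ (n + 1) * t ^ (n + 1))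
      (L * A * ‖u‖ ^ (n + 1) * t ^ n) t := by
    intro t
    have h1 := (hasDerivAt_pow (n + 1) t).const_mul ((L * A / (n + 1)) * ‖u‖ ^ (n + 1))
    have h2 : (L * A / (n + 1)) * ‖u‖ ^ (n + 1) * (((n + 1 : ℕ) : ℝ) * t ^ (n + 1 - 1))
        = L * A * ‖u‖ ^ (n + 1) * t ^ n := by
      have : (n : ℝ) + 1 ≠ 0 := by positivity
      push_cast
      field_simp
    rwa [h2] at h1
  have key := image_norm_le_of_norm_deriv_right_le_deriv_boundary (a := 0) (b := 1)
      (f := fun t : ℝ => J' ((t : ℂ) * u) - K' ((t : ℂ) * u))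
      (B := fun t : ℝ => (L * A / (n + 1)) * ‖u‖ ^ (n + 1) * t ^ (n + 1))
      (fun t ht => (hD t ht).continuousAt.continuousWithinAt)
      (fun t ht => (hD t ⟨ht.1, ht.2.le⟩).hasDerivWithinAt)
      (by simp [hJ0, hK0]) hB ?_
  · have := key (⟨zero_le_one, le_rfl⟩ : (1 : ℝ) ∈ Icc (0 : ℝ) 1)
    simpa using this
  · intro t ht
    have htc : t ∈ Icc (0 : ℝ) 1 := ⟨ht.1, ht.2.le⟩
    rw [norm_mul]
    have h1 := hLip _ (hmem t htc)
    have h2 := hb _ (hmem t htc)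
    have h3 : ‖(t : ℂ) * u‖ = t * ‖u‖ := by
      rw [norm_mul, norm_real, Real.norm_of_nonneg ht.1]
    rw [h3] at h2
    calc ‖FF ((t : ℂ) * u) (J ((t : ℂ) * u)) - FF ((t : ℂ) * u) (K ((t : ℂ) * u))‖ * ‖u‖
        ≤ (L * (A * (t * ‖u‖) ^ n)) * ‖u‖ := by
          apply mul_le_mul_of_nonneg_right _ (norm_nonneg _)
          exact h1.trans (mul_le_mul_of_nonneg_left h2 hL)
      _ = L * A * ‖u‖ ^ (n + 1) * t ^ n := by
          rw [mul_pow, pow_succ ‖u‖ n]
          ring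

end Pool.Agent.H7.Crem
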