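import Pool.Agent.H7.Crem.Phi
import Pool.Agent.H44.Crem.UFunDefs

/-!
# Real properties of `E` and `W`
-/

set_option autoImplicit false

open Complex Metric Set Filter Topology
open Pool.Agent.H44.Crem (WRof)

namespace Pool.Agent.H7.Crem

/-- `E 0 = 0`, `E' (s) = - φ(-s)` -/
structure EFun (E : ℂ → ℂ) : Prop where
  zero : E 0 = 0
  der : ∀ s, HasDerivAt E (- phi (-s)) s

variable {E : ℂ → ℂ}

theorem hasDerivAt_im_ofReal {f : ℂ → ℂ} {f' : ℂ} {x : ℝ} (h : HasDerivAt f f' x) :
    HasDerivAt (fun x : ℝ => (f x).im) f'.im x :=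
  (imCLM.hasFDerivAt.comp_hasDerivAt x h.comp_ofReal :)

theorem hasDerivAt_re_ofReal {f : ℂ → ℂ} {f' : ℂ} {x : ℝ} (h : HasDerivAt f f' x) :
    HasDerivAt (fun x : ℝ => (f x).re) f'.re x :=
  (reCLM.hasFDerivAt.comp_hasDerivAt x h.comp_ofReal :)

theorem EFun.im_eq (h : EFun E) (x : ℝ) : (E x).im = 0 := by
  have h1 : ∀ y : ℝ, HasDerivAt (fun y : ℝ => (E y).im) 0 y := by
    intro y
    have h2 := hasDerivAt_im_ofReal (h.der (y : ℂ))
    have h3 : (- phi (-(y : ℂ))).im = 0 := by
      rw [neg_im, neg_eq_zero, ← ofReal_neg]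
      exact phi_ofReal_im _
    rwa [h3] at h2
  have h4 := is_const_of_deriv_eq_zero (fun y => (h1 y).differentiableAt)
    (fun y => (h1 y).deriv) x 0
  simp only [ofReal_zero, h.zero, zero_im] at h4
  exact h4

theorem EFun.real (h : EFun E) (x : ℝ) : E x = (((E x).re : ℝ) : ℂ) := by
  apply Complex.ext
  · simp
  · simp [h.im_eq]

theorem EFun.re_der (h : EFun E) (x : ℝ) :
    HasDerivAt (fun x : ℝ => (E x).re) (-(phi (-(x : ℂ))).re) x := by
  have h2 := hasDerivAt_re_ofReal (h.der (x : ℂ))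
  rwa [neg_re] at h2

theorem EFun.anti (h : EFun E) : StrictAnti (fun x : ℝ => (E x).re) := by
  apply strictAnti_of_deriv_neg
  intro x
  rw [(h.re_der x).deriv, neg_lt_zero, ← ofReal_neg]
  exact phi_re_pos _

theorem EFun.re_zero (h : EFun E) : (E ((0 : ℝ) : ℂ)).re = 0 := by
  simp [h.zero]

theorem EFun.re_nonpos (h : EFun E) {x : ℝ} (hx : 0 ≤ x) : (E x).re ≤ 0 := by
  have := h.anti.antitone hx
  simpa [h.zero] using this

theorem mul_phi_neg_re (x : ℝ) : x * (phi (-(x : ℂ))).re = 1 - Real.exp (-x) := by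
  have := phi_re_mul (-x)
  rw [ofReal_neg] at this
  linarith

theorem EFun.tendsto (h : EFun E) : Tendsto (fun x : ℝ => (E x).re) atTop atBot := by
  -- for `x ≥ 1`: `E x ≤ E 1 - (1 - 1/e) log x`
  have hc : 0 < 1 - Real.exp (-1) := by
    have : Real.exp (-1) < 1 := by
      rw [Real.exp_lt_one_iff]
      norm_num
    linarith
  have key : ∀ x : ℝ, 1 ≤ x → (E x).re ≤ (E ((1 : ℝ) : ℂ)).re - (1 - Real.exp (-1)) * Real.log x := by
    have hmono : AntitoneOn (fun x : ℝ => (E x).re + (1 - Real.exp (-1)) * Real.log x) (Ici 1) := by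
      apply antitoneOn_of_deriv_nonpos (convex_Ici 1)
      · intro x hx
        have hx0 : x ≠ 0 := by
          have : (1 : ℝ) ≤ x := hx
          linarith
        exact ((h.re_der x).continuousAt.add
          (continuousAt_const.mul (Real.continuousAt_log hx0))).continuousWithinAt
      · intro x hx
        rw [interior_Ici] at hx
        have hx0 : x ≠ 0 := by
          have : (1 : ℝ) < x := hx
          linarith
        exact ((h.re_der x).differentiableAt.add
          ((Real.hasDerivAt_log hx0).differentiableAt.const_mul _)).differentiableWithinAt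
      · intro x hx
        rw [interior_Ici] at hx
        have hx1 : (1 : ℝ) < x := hx
        have hx0 : x ≠ 0 := by linarith
        have hd := (h.re_der x).add ((Real.hasDerivAt_log hx0).const_mul (1 - Real.exp (-1)))
        have he : deriv (fun x : ℝ => (E x).re + (1 - Real.exp (-1)) * Real.log x) x
          = -(phi (-(x : ℂ))).re + (1 - Real.exp (-1)) * x⁻¹ := hd.deriv
        rw [he]
        have h1 := mul_phi_neg_re x
        have h2 : (phi (-(x : ℂ))).re = (1 - Real.exp (-x)) * x⁻¹ := by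
          field_simp
          linarith
        rw [h2]
        have h3 : Real.exp (-x) ≤ Real.exp (-1) := Real.exp_le_exp.mpr (by linarith)
        have h4 : 0 < x⁻¹ := by positivity
        nlinarith
    intro x hx
    have := hmono (mem_Ici.mpr le_rfl) (mem_Ici.mpr hx) hx
    simp only [Real.log_one, mul_zero, add_zero] at this
    linarith
  have h5 : Tendsto (fun x : ℝ => (E ((1 : ℝ) : ℂ)).re - (1 - Real.exp (-1)) * Real.log x)
      atTop atBot := by
    apply Filter.tendsto_atBot_add_const_left atTop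
    apply Filter.tendsto_neg_atTop_atBot.comp
    exact Real.tendsto_log_atTop.const_mul_atTop hc
  refine tendsto_atBot_mono' atTop ?_ h5
  filter_upwards [eventually_ge_atTop (1 : ℝ)] with x hx
  exact key x hx

theorem EFun.W_der (h : EFun E) (x : ℝ) :
    HasDerivAt (WRof E) (Real.exp ((E x).re - x)) x := by
  have h1 := (hasDerivAt_id x).mul (h.re_der x).exp
  have h2 : (1 * Real.exp (E x).re + id x * (Real.exp (E x).re * (-(phi (-(x : ℂ))).re)))
      = Real.exp ((E x).re - x) := by
    have h3 := mul_phi_neg_re x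
    rw [sub_eq_add_neg, Real.exp_add]
    simp only [id]
    linear_combination (-(Real.exp (E x).re)) * h3
  rw [h2] at h1
  exact h1

theorem EFun.W_strictMono (h : EFun E) : StrictMono (WRof E) := by
  apply strictMono_of_deriv_pos
  intro x
  rw [(h.W_der x).deriv]
  exact Real.exp_pos _

theorem EFun.W_cont (h : EFun E) : Continuous (WRof E) := by
  rw [continuous_iff_continuousAt]
  intro x
  exact (h.W_der x).continuousAt

theorem W_zero : WRof E 0 = 0 := by
  simp [WRof]

theorem EFun.W_nonneg (h : EFun E) {x : ℝ} (hx : 0 ≤ x) : 0 ≤ WRof E x := by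
  have := h.W_strictMono.monotone hx
  rwa [W_zero] at this

theorem EFun.W_le (h : EFun E) {x : ℝ} (hx : 0 ≤ x) : WRof E x ≤ 1 - Real.exp (-x) := by
  have hmono : MonotoneOn (fun x : ℝ => (1 - Real.exp (-x)) - WRof E x) (Ici 0) := by
    have hd : ∀ x : ℝ, HasDerivAt (fun x : ℝ => (1 - Real.exp (-x)) - WRof E x)
        (Real.exp (-x) - Real.exp ((E x).re - x)) x := by
      intro x
      have h1 : HasDerivAt (fun x : ℝ => 1 - Real.exp (-x)) (Real.exp (-x)) x := by
        have := (((hasDerivAt_neg x)).exp).const_sub 1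
        simpa using this
      exact h1.sub (h.W_der x)
    apply monotoneOn_of_deriv_nonneg (convex_Ici 0)
    · intro x _
      exact (hd x).continuousAt.continuousWithinAt
    · intro x _
      exact (hd x).differentiableAt.differentiableWithinAt
    · intro x hx
      rw [interior_Ici] at hx
      have hx1 : (0 : ℝ) < x := hx
      rw [(hd x).deriv]
      have := h.re_nonpos hx1.le
      have h2 : Real.exp ((E x).re - x) ≤ Real.exp (-x) := Real.exp_le_exp.mpr (by linarith)
      linarith
  have := hmono (mem_Ici.mpr le_rfl) (mem_Ici.mpr hx) hx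
  simp only [W_zero, neg_zero, Real.exp_zero, sub_self] at this
  linarith

/-- the limit of `W` -/
noncomputable def rsOf (E : ℂ → ℂ) : ℝ := sSup (WRof E '' Ici 0)

theorem EFun.bdd (h : EFun E) : BddAbove (WRof E '' Ici 0) := by
  refine ⟨1, ?_⟩
  rintro _ ⟨x, hx, rfl⟩
  have := h.W_le hx
  have h2 := Real.exp_pos (-x)
  linarith

theorem EFun.W_lt (h : EFun E) {x : ℝ} (hx : 0 ≤ x) : WRof E x < rsOf E := by
  have h1 : WRof E x < WRof E (x + 1) := h.W_strictMono (by linarith)
  exact h1.trans_le (le_csSup h.bdd ⟨x + 1, by simp; linarith, rfl⟩)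

theorem EFun.rs_pos (h : EFun E) : 0 < rsOf E := by
  have := h.W_lt le_rfl
  rwa [W_zero] at this

theorem EFun.W_surj (h : EFun E) {y : ℝ} (hy : 0 ≤ y) (hy2 : y < rsOf E) :
    ∃ x, 0 ≤ x ∧ WRof E x = y := by
  obtain ⟨_, ⟨x, hx, rfl⟩, hlt⟩ := exists_lt_of_lt_csSup (s := WRof E '' Ici 0)
    ⟨WRof E 0, ⟨0, by simp, rfl⟩⟩ hy2
  have h2 := intermediate_value_Icc (mem_Ici.mp hx) (h.W_cont.continuousOn)
  rw [W_zero] at h2
  obtain ⟨z, hz, hzy⟩ := h2 ⟨hy, hlt.le⟩
  exact ⟨z, hz.1, hzy⟩

end Pool.Agent.H7.Crem
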